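import Mathlib
import Pool.Agent.W313.HB.Stm3
import Pool.Agent.W461.HB.Large

/-!
# Project HB, part LARGE3
-/

set_option autoImplicit false

namespace Pool.Agent.W54.HB

open Polynomial
open Finset hiding val
open Pool.Agent.W313.HB
open Pool.Agent.W461.HB (mm abs_mm recip)
open scoped NumberTheorySymbols

theorem natAbs_mm (k : ℕ) : (mm k).natAbs = k := by
  have := abs_mm k
  rw [Int.abs_eq_natAbs] at this
  exact_mod_cast this

theorem val_mul (F G : ℤ[X]) (t1 M u : ℕ) : val (F * G) t1 M u = val F t1 M u * val G t1 M u := by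
  unfold val
  rw [Polynomial.eval_mul]

theorem sqfree_dvd (n m : ℕ) (hn : Squarefree n) (h : ∀ p : ℕ, p.Prime → p ∣ n → p ∣ m) : n ∣ m := by
  rw [← Nat.prod_primeFactors_of_squarefree hn]
  apply Finset.prod_primes_dvd
  · intro p hp
    exact (Nat.prime_of_mem_primeFactors hp).prime
  · intro p hp
    exact h p (Nat.prime_of_mem_primeFactors hp) (Nat.dvd_of_mem_primeFactors hp)

theorem sq_cancel (s A : ℤ) (hs : s ≠ 0) (h : IsSquare (s * s * A)) : IsSquare A := by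
  obtain ⟨r, hr⟩ := h
  have h1 : s ^ 2 ∣ r ^ 2 := ⟨A, by rw [sq, sq, ← hr]⟩
  have h2 : s ∣ r := (Int.pow_dvd_pow_iff (by norm_num)).1 h1
  obtain ⟨k, hk⟩ := h2
  refine ⟨k, ?_⟩
  have h3 : (s * s) * A = (s * s) * (k * k) := by rw [hr, hk]; ring
  exact mul_left_cancel₀ (mul_ne_zero hs hs) h3

/-- the finite set of possible squarefree parts -/
def Sg (N : ℕ) : Finset ℤ :=
  (N.divisors.image (fun a : ℕ => (a : ℤ))) ∪ (N.divisors.image (fun a : ℕ => -(a : ℤ)))

theorem Sg_ne (N : ℕ) (s : ℤ) (hs : s ∈ Sg N) : s ≠ 0 := by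
  unfold Sg at hs
  rw [mem_union, mem_image, mem_image] at hs
  rcases hs with ⟨a, ha, rfl⟩ | ⟨a, ha, rfl⟩
  · have := Nat.pos_of_mem_divisors ha
    omega
  · have := Nat.pos_of_mem_divisors ha
    omega

/-- a number is a square up to a divisor of `N` as soon as its valuations outside `N` are even -/
theorem exists_sg (N : ℕ) (hN : 1 ≤ N) (A : ℤ)
    (h : ∀ q a b : ℕ, q.Prime → ¬ q ∣ N → Squarefree a → a * b ^ 2 = A.natAbs → ¬ q ∣ a) :
    ∃ s ∈ Sg N, IsSquare (s * A) := by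
  obtain ⟨a, b, hab, ha⟩ := Nat.sq_mul_squarefree A.natAbs
  have haN : a ∣ N := by
    refine sqfree_dvd a N ha (fun p hp hpa => ?_)
    by_contra hpN
    exact h p a b hp hpN ha (by rw [← hab]; ring) hpa
  have hmem : a ∈ N.divisors := Nat.mem_divisors.2 ⟨haN, by omega⟩
  have hsq : (a : ℤ) * (A.natAbs : ℤ) = (a * b : ℤ) * (a * b : ℤ) := by
    rw [← hab]
    push_cast
    ring
  rcases Int.natAbs_eq A with h1 | h1
  · refine ⟨(a : ℤ), ?_, ⟨a * b, ?_⟩⟩
    · exact mem_union_left _ (mem_image.2 ⟨a, hmem, rfl⟩)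
    · rw [h1]
      exact hsq
  · refine ⟨-(a : ℤ), ?_, ⟨a * b, ?_⟩⟩
    · exact mem_union_right _ (mem_image.2 ⟨a, hmem, rfl⟩)
    · rw [h1, neg_mul_neg]
      exact hsq

theorem odd_val (q a b K L z r : ℕ) (hq : q.Prime) (ha : Squarefree a) (hqa : q ∣ a)
    (hab : a * b ^ 2 ≠ 0) (hK : ¬ q ∣ K) (hz : z = K * (a * b ^ 2)) (hK0 : K ≠ 0) (hL0 : L ≠ 0)
    (h : z * L = r * r) : q ∣ L := by
  by_contra hL
  have ha0 : a ≠ 0 := ha.ne_zero
  have hb0 : b ≠ 0 := by
    rintro rfl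
    simp at hab
  have hr0 : r ≠ 0 := by
    rintro rfl
    rw [hz] at h
    have : K * (a * b ^ 2) * L ≠ 0 := mul_ne_zero (mul_ne_zero hK0 hab) hL0
    simp at h
    omega
  have h1 : (z * L).factorization q = (r * r).factorization q := by rw [h]
  rw [hz, Nat.factorization_mul (mul_ne_zero hK0 hab) hL0, Nat.factorization_mul hK0 hab,
    Nat.factorization_mul ha0 (pow_ne_zero 2 hb0), Nat.factorization_mul hr0 hr0,
    Nat.factorization_pow] at h1
  simp only [Finsupp.add_apply, Finsupp.smul_apply, smul_eq_mul] at h1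
  have h2 : K.factorization q = 0 := Nat.factorization_eq_zero_of_not_dvd hK
  have h3 : L.factorization q = 0 := Nat.factorization_eq_zero_of_not_dvd hL
  have h4 : a.factorization q ≤ 1 := ha.natFactorization_le_one q
  have h5 : 1 ≤ a.factorization q := hq.factorization_pos_of_dvd ha0 hqa
  omega

theorem large3_ (h1 : S_LSV) (h2 : S_COMMON) (h3 : S_SIZE) (h4 : S_MULT) : S_LARGE3 := by
  classical
  intro P1 P2 P3 hGood hdeg3 N hN hcop
  have hPne : P1 * P2 * P3 ≠ 0 := by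
    intro h0
    have := hGood.2
    rw [h0, natDegree_zero] at this
    omega
  have hP3ne : P3 ≠ 0 := right_ne_zero_of_mul hPne
  have hP1ne : P1 ≠ 0 := left_ne_zero_of_mul (left_ne_zero_of_mul hPne)
  have hP13ne : P1 * P3 ≠ 0 := mul_ne_zero hP1ne hP3ne
  have hG3 : Good P3 := by
    refine ⟨?_, hdeg3⟩
    have h5 := hGood.1
    rw [Polynomial.map_mul] at h5
    exact h5.of_mul_right
  obtain ⟨C1, U1, E1, hC1, hcom⟩ := h2 (P1 * P2 * P3) hPne
  obtain ⟨Ca, U2, hsize1⟩ := h3 P1 hP1ne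
  obtain ⟨Cb, U3, hsize13⟩ := h3 (P1 * P3) hP13ne
  obtain ⟨C3, U4, hC3, hmult⟩ := h4 P3 hG3
  obtain ⟨CN, hCN⟩ : ∃ CN : ℝ, CN = ((Sg N).card : ℝ) * √C3 := ⟨_, rfl⟩
  have hCN0 : 0 ≤ CN := by rw [hCN]; positivity
  refine ⟨C1 + CN, 2 * (Ca + Cb) + 7, max (max U1 U2) (max (max U3 U4) 4), E1, by positivity, ?_⟩
  intro U hU E hE M t1 hM hMU ht1 I c T hT hc hI hcard X
  have hU1 : U1 ≤ U := le_trans (le_trans (le_max_left _ _) (le_max_left _ _)) hU
  have hU2 : U2 ≤ U := le_trans (le_trans (le_max_right _ _) (le_max_left _ _)) hU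
  have hU3 : U3 ≤ U := le_trans (le_trans (le_trans (le_max_left _ _) (le_max_left _ _))
    (le_max_right _ _)) hU
  have hU4 : U4 ≤ U := le_trans (le_trans (le_trans (le_max_right _ _) (le_max_left _ _))
    (le_max_right _ _)) hU
  have hU5 : 4 ≤ U := le_trans (le_trans (le_max_right _ _) (le_max_right _ _)) hU
  have hU4R : (4 : ℝ) ≤ U := by exact_mod_cast hU5
  have hU0 : (0 : ℝ) ≤ U := Nat.cast_nonneg _
  have hUpos : (0 : ℝ) < U := by linarith
  have hTR : (T : ℝ) ≤ U := by exact_mod_cast hT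
  have hT0 : (0 : ℝ) ≤ T := Nat.cast_nonneg _
  obtain ⟨m, hm⟩ : ∃ m : ℕ × ℕ → ℤ, ∀ x, m x = mm x.2 * val (P1 * P3) t1 M x.1 := ⟨_, fun x => rfl⟩
  have hL := h1 (ℕ × ℕ) I c m 0 X (Nat.zero_le X)
  have hIcc : Icc 1 X = Ioc 0 X := rfl
  have e1 : ∑ n ∈ (Icc 1 X).filter (fun n => Odd n), (∑ x ∈ I, c x * ((jacobiSym (n : ℤ) x.2 : ℝ) *
      (jacobiSym (val (P1 * P3) t1 M x.1) n : ℝ))) ^ 2 =
      ∑ n ∈ (Ioc 0 X).filter (fun n => Odd n), (∑ x ∈ I, c x * (jacobiSym (m x) n : ℝ)) ^ 2 := by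
    rw [hIcc]
    refine Finset.sum_congr rfl fun n hn => ?_
    congr 1
    refine Finset.sum_congr rfl fun x hx => ?_
    rw [recip n x.2 (Finset.mem_filter.mp hn).2 (hI x hx).2.1, hm, jacobiSym.mul_left]
    push_cast
    ring
  rw [e1]
  -- nonvanishing
  have hval : ∀ x ∈ I, val P1 t1 M x.1 ≠ 0 ∧ val P3 t1 M x.1 ≠ 0 ∧ x.2 ≠ 0 ∧
      |val P1 t1 M x.1| ≤ (U : ℤ) ^ Ca ∧ |val (P1 * P3) t1 M x.1| ≤ (U : ℤ) ^ Cb := by
    intro x hx
    obtain ⟨a1, a2, a3, a4, a5⟩ := hI x hx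
    rw [Finset.mem_Ioc] at a1
    obtain ⟨s1, s2, _⟩ := hsize1 U hU2 M t1 x.1 hM hMU ht1 a1.1 a1.2
    obtain ⟨r1, r2, _⟩ := hsize13 U hU3 M t1 x.1 hM hMU ht1 a1.1 a1.2
    rw [val_mul] at r1
    exact ⟨s1, right_ne_zero_of_mul r1, a3.ne_zero, s2, r2⟩
  refine hL.trans (add_le_add ?_ ?_)
  · -- the diagonal
    obtain ⟨P, hP⟩ : ∃ P, P = (I ×ˢ I).filter (fun x => IsSquare (m x.1 * m x.2)) := ⟨_, rfl⟩
    rw [← hP]
    obtain ⟨S, hS⟩ : ∃ S, S = (((Ioc U (2 * U)) ×ˢ (Ioc U (2 * U))).filter (fun x : ℕ × ℕ =>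
      ∃ q : ℕ, q.Prime ∧ E < q ∧ ¬ q ∣ M ∧ (q : ℤ) ∣ val (P1 * P2 * P3) t1 M x.1 ∧
        (q : ℤ) ∣ val (P1 * P2 * P3) t1 M x.2)) := ⟨_, rfl⟩
    obtain ⟨As, hAs⟩ : ∃ As : ℤ → Finset ℕ, ∀ s, As s = (Ioc U (2 * U)).filter (fun u =>
      IsSquare (s * val P3 t1 M u)) := ⟨_, fun s => rfl⟩
    obtain ⟨S2, hS2⟩ : ∃ S2 : Finset (ℕ × ℕ), S2 = (Sg N).biUnion (fun s =>
      (As s) ×ˢ (Ioc U (2 * U))) := ⟨_, rfl⟩
    have hScard : (S.card : ℝ) ≤ C1 * ((U : ℝ) ^ 2 / E + U) := by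
      rw [hS]
      exact hcom U hU1 E hE M t1 hM hMU ht1
    have hAcard : ∀ s ∈ Sg N, ((As s).card : ℝ) ≤ √C3 * (U : ℝ) ^ (19 / 20 : ℝ) := by
      intro s hs
      have hs0 := Sg_ne N s hs
      have h6 : (As s ×ˢ As s).card ≤ (((Ioc U (2 * U)) ×ˢ (Ioc U (2 * U))).filter
          (fun x : ℕ × ℕ => IsSquare (val P3 t1 M x.1 * val P3 t1 M x.2))).card := by
        refine Finset.card_le_card ?_
        intro x hx
        rw [mem_product, hAs, mem_filter, mem_filter] at hx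
        obtain ⟨⟨g1, g2⟩, g3, g4⟩ := hx
        rw [mem_filter, mem_product]
        refine ⟨⟨g1, g3⟩, sq_cancel s _ hs0 ?_⟩
        have h7 : s * s * (val P3 t1 M x.1 * val P3 t1 M x.2) =
            (s * val P3 t1 M x.1) * (s * val P3 t1 M x.2) := by ring
        rw [h7]
        exact g2.mul g4
      rw [card_product] at h6
      have h7 := hmult U hU4 M t1 hM hMU ht1
      have h8 : ((As s).card : ℝ) * ((As s).card : ℝ) ≤ C3 * (U : ℝ) ^ (19 / 10 : ℝ) := by
        refine le_trans ?_ h7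
        exact_mod_cast h6
      have h9 : √C3 * (U : ℝ) ^ (19 / 20 : ℝ) = √(C3 * (U : ℝ) ^ (19 / 10 : ℝ)) := by
        rw [Real.sqrt_mul hC3, Real.sqrt_eq_rpow ((U : ℝ) ^ (19 / 10 : ℝ)), ← Real.rpow_mul hU0]
        norm_num
      rw [h9]
      apply Real.le_sqrt_of_sq_le
      rw [sq]
      exact h8
    have hIoc : (Ioc U (2 * U)).card = U := by
      rw [Nat.card_Ioc]
      omega
    have hS2card : (S2.card : ℝ) ≤ CN * (U : ℝ) ^ (39 / 20 : ℝ) := by
      have h6 : S2.card ≤ ∑ s ∈ Sg N, (As s).card * U := by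
        rw [hS2]
        refine card_biUnion_le.trans (le_of_eq ?_)
        refine sum_congr rfl (fun s _ => ?_)
        rw [card_product, hIoc]
      have h7 : (S2.card : ℝ) ≤ ∑ s ∈ Sg N, ((As s).card : ℝ) * U := by exact_mod_cast h6
      refine h7.trans ?_
      have h8 : ∑ s ∈ Sg N, ((As s).card : ℝ) * U ≤
          ∑ _s ∈ Sg N, (√C3 * (U : ℝ) ^ (19 / 20 : ℝ)) * U :=
        sum_le_sum (fun s hs => mul_le_mul_of_nonneg_right (hAcard s hs) hU0)
      refine h8.trans (le_of_eq ?_)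
      have h9 : (U : ℝ) ^ (39 / 20 : ℝ) = (U : ℝ) ^ (19 / 20 : ℝ) * U := by
        rw [show (39 / 20 : ℝ) = 19 / 20 + 1 by norm_num, Real.rpow_add hUpos, Real.rpow_one]
      rw [sum_const, nsmul_eq_mul, h9, hCN]
      ring
    have hPS : P.card ≤ (T * T) * (S ∪ S2).card := by
      refine Finset.card_le_mul_card_image_of_maps_to (f := fun x => (x.1.1, x.2.1)) ?_ (T * T) ?_
      · intro x hx
        rw [hP, Finset.mem_filter, Finset.mem_product] at hx
        obtain ⟨⟨hx1, hx2⟩, hsq⟩ := hx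
        obtain ⟨a1, a2, a3, a4, a5⟩ := hI x.1 hx1
        obtain ⟨b1, b2, b3, b4, b5⟩ := hI x.2 hx2
        obtain ⟨v1, v2, v3, -, -⟩ := hval x.1 hx1
        obtain ⟨w1, w2, w3, -, -⟩ := hval x.2 hx2
        rw [mem_union]
        by_cases hcase : (x.1.1, x.2.1) ∈ S
        · exact Or.inl hcase
        · right
          have hmain : ∃ s ∈ Sg N, IsSquare (s * val P3 t1 M x.1.1) := by
            refine exists_sg N hN _ (fun q a b hq hqN ha hab hqa => ?_)
            apply hcase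
            have hq3 : (q : ℤ) ∣ val P3 t1 M x.1.1 := by
              rw [Int.natCast_dvd, ← hab]
              exact Dvd.dvd.mul_right hqa _
            have hqP : (q : ℤ) ∣ val (P1 * P2 * P3) t1 M x.1.1 := by
              rw [val_mul]
              exact Dvd.dvd.mul_left hq3 _
            obtain ⟨hEq, hqM⟩ := a5 q hq hqN hqP
            have hq1 : ¬ (q : ℤ) ∣ val P1 t1 M x.1.1 := by
              intro h
              exact hcop q hq hqN _ h hq3
            have hqx : ¬ q ∣ x.1.2 := fun h => hq1 (a4 q hq h).2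
            obtain ⟨r, hr⟩ := hsq
            have hr' : (m x.1).natAbs * (m x.2).natAbs = r.natAbs * r.natAbs := by
              rw [← Int.natAbs_mul, hr, Int.natAbs_mul]
            have hmx : (m x.1).natAbs = (x.1.2 * (val P1 t1 M x.1.1).natAbs) * (a * b ^ 2) := by
              rw [hm, val_mul, Int.natAbs_mul, Int.natAbs_mul, natAbs_mm, hab]
              ring
            have hmy : (m x.2).natAbs =
                x.2.2 * ((val P1 t1 M x.2.1).natAbs * (val P3 t1 M x.2.1).natAbs) := by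
              rw [hm, val_mul, Int.natAbs_mul, Int.natAbs_mul, natAbs_mm]
            have hy0 : (m x.2).natAbs ≠ 0 := by
              rw [hmy]
              exact mul_ne_zero w3 (mul_ne_zero (Int.natAbs_ne_zero.2 w1) (Int.natAbs_ne_zero.2 w2))
            have hqL : q ∣ (m x.2).natAbs := by
              refine odd_val q a b (x.1.2 * (val P1 t1 M x.1.1).natAbs) (m x.2).natAbs
                (m x.1).natAbs r.natAbs hq ha hqa ?_ ?_ hmx ?_ hy0 hr'
              · rw [hab]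
                exact Int.natAbs_ne_zero.2 v2
              · rw [hq.dvd_mul]
                rintro (h | h)
                · exact hqx h
                · exact hq1 (Int.natCast_dvd.2 h)
              · exact mul_ne_zero v3 (Int.natAbs_ne_zero.2 v1)
            have hqy : (q : ℤ) ∣ val (P1 * P2 * P3) t1 M x.2.1 := by
              rw [val_mul, val_mul]
              rw [hmy, hq.dvd_mul, hq.dvd_mul] at hqL
              rcases hqL with h | h | h
              · exact Dvd.dvd.mul_right (Dvd.dvd.mul_right (b4 q hq h).2 _) _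
              · exact Dvd.dvd.mul_right (Dvd.dvd.mul_right (Int.natCast_dvd.2 h) _) _
              · exact Dvd.dvd.mul_left (Int.natCast_dvd.2 h) _
            rw [hS, mem_filter, mem_product]
            exact ⟨⟨a1, b1⟩, q, hq, hEq, hqM, hqP, hqy⟩
          obtain ⟨s, hs, hs2⟩ := hmain
          rw [hS2, mem_biUnion]
          refine ⟨s, hs, ?_⟩
          rw [mem_product, hAs, mem_filter]
          exact ⟨⟨a1, hs2⟩, b1⟩
      · intro b _
        have h6 : (P.filter (fun x => (x.1.1, x.2.1) = b)).card ≤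
            ((I.filter (fun x => x.1 = b.1)) ×ˢ (I.filter (fun x => x.1 = b.2))).card := by
          refine Finset.card_le_card ?_
          intro x hx
          rw [Finset.mem_filter, hP, Finset.mem_filter, Finset.mem_product] at hx
          rw [mem_product, mem_filter, mem_filter]
          refine ⟨⟨hx.1.1.1, ?_⟩, ⟨hx.1.1.2, ?_⟩⟩
          · rw [← hx.2]
          · rw [← hx.2]
        rw [card_product] at h6
        exact h6.trans (Nat.mul_le_mul (hcard b.1) (hcard b.2))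
    have hsum : ∑ x ∈ P, |c x.1| * |c x.2| ≤ (P.card : ℝ) * ((T : ℝ) * T) := by
      rw [← nsmul_eq_mul]
      refine Finset.sum_le_card_nsmul _ _ _ fun x hx => ?_
      rw [hP, Finset.mem_filter, Finset.mem_product] at hx
      exact mul_le_mul (hc _ hx.1.1) (hc _ hx.1.2) (abs_nonneg _) hT0
    have hUU : (U : ℝ) ≤ (U : ℝ) ^ (39 / 20 : ℝ) := by
      calc (U : ℝ) = (U : ℝ) ^ (1 : ℝ) := (Real.rpow_one _).symm
        _ ≤ _ := Real.rpow_le_rpow_of_exponent_le (by linarith) (by norm_num)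
    have hUE : 0 ≤ (U : ℝ) ^ 2 / E := by positivity
    have hPR : (P.card : ℝ) ≤ (T * T) * ((C1 + CN) * ((U : ℝ) ^ 2 / E + (U : ℝ) ^ (39 / 20 : ℝ))) := by
      have h6 : (P.card : ℝ) ≤ (T * T) * ((S ∪ S2).card : ℝ) := by exact_mod_cast hPS
      have h7 : ((S ∪ S2).card : ℝ) ≤ S.card + S2.card := by exact_mod_cast card_union_le S S2
      refine h6.trans (mul_le_mul_of_nonneg_left ?_ (by positivity))
      have h8 : C1 * ((U : ℝ) ^ 2 / E + U) ≤ C1 * ((U : ℝ) ^ 2 / E + (U : ℝ) ^ (39 / 20 : ℝ)) :=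
        mul_le_mul_of_nonneg_left (by linarith) hC1
      have h9 : CN * (U : ℝ) ^ (39 / 20 : ℝ) ≤
          CN * ((U : ℝ) ^ 2 / E + (U : ℝ) ^ (39 / 20 : ℝ)) :=
        mul_le_mul_of_nonneg_left (by linarith) hCN0
      rw [add_mul]
      linarith
    have hX : ((X : ℕ) : ℝ) - ((0 : ℕ) : ℝ) = X := by simp
    rw [hX]
    calc (X : ℝ) * ∑ x ∈ P, |c x.1| * |c x.2| ≤ X * ((P.card : ℝ) * ((T : ℝ) * T)) :=
          mul_le_mul_of_nonneg_left hsum (Nat.cast_nonneg _)
      _ ≤ X * (((T * T) * ((C1 + CN) * ((U : ℝ) ^ 2 / E + (U : ℝ) ^ (39 / 20 : ℝ)))) *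
            ((T : ℝ) * T)) :=
          mul_le_mul_of_nonneg_left (mul_le_mul_of_nonneg_right hPR (mul_nonneg hT0 hT0)) (Nat.cast_nonneg _)
      _ = (C1 + CN) * X * (T : ℝ) ^ 4 * ((U : ℝ) ^ 2 / E + (U : ℝ) ^ (39 / 20 : ℝ)) := by ring
  · -- the second term
    have hcI : I.card ≤ U * T := by
      have hh : I.card ≤ T * (Ioc U (2 * U)).card :=
        Finset.card_le_mul_card_image_of_maps_to (f := fun x => x.1) (fun x hx => (hI x hx).1) T
          (fun b _ => hcard b)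
      rw [Nat.card_Ioc] at hh
      have : 2 * U - U = U := by omega
      rw [this, mul_comm] at hh
      exact hh
    have hcIR : (I.card : ℝ) ≤ U * T := by exact_mod_cast hcI
    have hterm : ∀ x ∈ I, |c x| * |((m x : ℤ) : ℝ)| ≤ (T : ℝ) * ((U : ℝ) ^ (Ca + Cb)) := by
      intro x hx
      obtain ⟨a1, a2, a3, a4, a5⟩ := hI x hx
      obtain ⟨s1, s2, s3, s4, s5⟩ := hval x hx
      refine mul_le_mul (hc x hx) ?_ (abs_nonneg _) hT0
      have h7 : |m x| = (x.2 : ℤ) * |val (P1 * P3) t1 M x.1| := by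
        rw [hm, abs_mul, abs_mm]
      have h8 : (x.2 : ℤ) ≤ |val P1 t1 M x.1| := by
        have h9 : x.2 ∣ (val P1 t1 M x.1).natAbs :=
          sqfree_dvd _ _ a3 (fun p hp hpx => Int.natCast_dvd.1 (a4 p hp hpx).2)
        have h10 := Nat.le_of_dvd (Int.natAbs_pos.2 s1) h9
        rw [Int.abs_eq_natAbs]
        exact_mod_cast h10
      have h11 : |m x| ≤ (U : ℤ) ^ (Ca + Cb) := by
        rw [h7, pow_add]
        exact mul_le_mul (h8.trans s4) s5 (abs_nonneg _) (by positivity)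
      have h12 : ((|m x| : ℤ) : ℝ) ≤ (((U : ℤ) ^ (Ca + Cb) : ℤ) : ℝ) := by exact_mod_cast h11
      push_cast at h12
      exact h12
    have hsum : ∑ x ∈ I, |c x| * |((m x : ℤ) : ℝ)| ≤ (U : ℝ) ^ (Ca + Cb + 3) := by
      calc ∑ x ∈ I, |c x| * |((m x : ℤ) : ℝ)| ≤ (I.card : ℝ) * ((T : ℝ) * (U : ℝ) ^ (Ca + Cb)) := by
            rw [← nsmul_eq_mul]
            exact Finset.sum_le_card_nsmul _ _ _ hterm
        _ ≤ (U * T) * ((T : ℝ) * (U : ℝ) ^ (Ca + Cb)) := mul_le_mul_of_nonneg_right hcIR (by positivity)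
        _ ≤ (U * U) * ((U : ℝ) * (U : ℝ) ^ (Ca + Cb)) := by gcongr
        _ = (U : ℝ) ^ (Ca + Cb + 3) := by ring
    have hnn : 0 ≤ ∑ x ∈ I, |c x| * |((m x : ℤ) : ℝ)| := Finset.sum_nonneg fun x _ => by positivity
    calc 4 * (∑ x ∈ I, |c x| * |((m x : ℤ) : ℝ)|) ^ 2 ≤ (U : ℝ) * ((U : ℝ) ^ (Ca + Cb + 3)) ^ 2 := by gcongr
      _ = (U : ℝ) ^ (2 * (Ca + Cb) + 7) := by ring

end Pool.Agent.W54.HB
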